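import Mathlib

/-!
# Linear context-free grammars
-/

set_option autoImplicit false

namespace Pool.Agent.H540R2

/-- A context-free grammar is linear if the right-hand side of every rule is `u B v` or `u` with
words `u`, `v` and a nonterminal `B`. -/
def IsLinear {T : Type} (G : ContextFreeGrammar T) : Prop :=
  ∀ r ∈ G.rules,
    (∃ (u v : List T) (B : G.NT), r.output =
      u.map Symbol.terminal ++ [Symbol.nonterminal B] ++ v.map Symbol.terminal) ∨
    ∃ u : List T, r.output = u.map Symbol.terminal

end Pool.Agent.H540R2
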