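import Mathlib
import Pool.Agent.H540R2.Lin.Defs

/-!
# A linear grammar for reachability
-/

set_option autoImplicit false

namespace Pool.Agent.H540R2.Lin

/-- tokens; `V a` is the flag of an edge -/
inductive GT (α : Type) where
  | P | B | H | D
  | V (a : α)
  deriving DecidableEq

/-- the code of a token -/
def GT.bits {α : Type} (c : Bool → α) : GT α → List α
  | .P => [c false, c false, c false]
  | .B => [c false, c false, c true]
  | .H => [c false, c true, c false]
  | .D => [c false, c true, c true]
  | .V a => [c true, c false, a]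

/-- the code of a list of tokens -/
def gbits {α : Type} (c : Bool → α) (l : List (GT α)) : List α := l.flatMap (GT.bits c)

/-- the code of a list of tokens -/
def bits (l : List (GT Bool)) : List Bool := gbits id l

/-- the nonterminals -/
inductive St where
  | S | T | U | A | cR | mR | fL | cL | mL | fR | E
  deriving DecidableEq

/-- the rules: `q → u q' v` -/
def tr : St → List (List (GT Bool) × St × List (GT Bool))
  | .S => [([], .T, []), ([], .A, [])]
  | .T => [([.P], .T, []), ([.B], .T, []), ([.H], .T, []), ([.V false], .T, []),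
      ([.V true], .T, []), ([.D], .U, [])]
  | .U => [([], .U, [.P]), ([], .U, [.B]), ([], .U, [.H]), ([], .U, [.V false]),
      ([], .U, [.V true]), ([], .S, [.D])]
  | .A => [([.P], .A, []), ([.B], .A, []), ([.V false], .A, []), ([.V true], .A, []),
      ([.V true, .B], .cR, [])]
  | .cR => [([], .cR, [.P]), ([], .cR, [.B]), ([], .cR, [.V false]), ([], .cR, [.V true]),
      ([], .mR, [.V true])]
  | .mR => [([.P], .mR, [.P]), ([.B], .fL, [.B])]
  | .fL => [([.P], .fL, []), ([.B], .fL, []), ([.V false], .fL, []), ([.V true], .fL, []),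
      ([.H], .cL, [])]
  | .cL => [([.P], .cL, []), ([.B], .cL, []), ([.V false], .cL, []), ([.V true], .cL, []),
      ([.V true], .mL, []), ([.D], .E, [.B])]
  | .mL => [([.P], .mL, [.P]), ([.B], .fR, [.B])]
  | .fR => [([], .fR, [.P]), ([], .fR, [.B]), ([], .fR, [.V false]), ([], .fR, [.V true]),
      ([], .cR, [.H])]
  | .E => []

/-- the rule `q → u q' v` -/
def toRule (q : St) (d : List (GT Bool) × St × List (GT Bool)) : ContextFreeRule Bool St :=
  ⟨q, (bits d.1).map Symbol.terminal ++ [Symbol.nonterminal d.2.1] ++
    (bits d.2.2).reverse.map Symbol.terminal⟩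

/-- the final rules: `E → 0 E`, `E → 1 E`, `E → ` empty word -/
def finRules : List (ContextFreeRule Bool St) :=
  [⟨.E, []⟩, ⟨.E, [Symbol.terminal false, Symbol.nonterminal .E]⟩,
    ⟨.E, [Symbol.terminal true, Symbol.nonterminal .E]⟩]

/-- all nonterminals -/
def allSt : List St := [.S, .T, .U, .A, .cR, .mR, .fL, .cL, .mL, .fR, .E]

lemma mem_allSt (q : St) : q ∈ allSt := by cases q <;> simp [allSt]

/-- the grammar -/
def Gr : ContextFreeGrammar Bool where
  NT := St
  initial := .S
  rules := (allSt.flatMap (fun q => (tr q).map (toRule q)) ++ finRules).toFinset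

lemma mem_rules (r : ContextFreeRule Bool St) : r ∈ Gr.rules ↔
    (∃ q d, d ∈ tr q ∧ r = toRule q d) ∨ r ∈ finRules := by
  show r ∈ (allSt.flatMap (fun q => (tr q).map (toRule q)) ++ finRules).toFinset ↔ _
  rw [List.mem_toFinset, List.mem_append, List.mem_flatMap]
  constructor
  · rintro (⟨q, -, h⟩ | h)
    · obtain ⟨d, hd, rfl⟩ := List.mem_map.1 h
      exact Or.inl ⟨q, d, hd, rfl⟩
    · exact Or.inr h
  · rintro (⟨q, d, hd, rfl⟩ | h)
    · exact Or.inl ⟨q, mem_allSt q, List.mem_map.2 ⟨d, hd, rfl⟩⟩
    · exact Or.inr h

lemma Gr_linear : IsLinear Gr := by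
  intro r hr
  rcases (mem_rules r).1 hr with ⟨q, d, -, rfl⟩ | h
  · exact Or.inl ⟨bits d.1, (bits d.2.2).reverse, d.2.1, rfl⟩
  · simp only [finRules, List.mem_cons, List.not_mem_nil, or_false] at h
    rcases h with rfl | rfl | rfl
    · exact Or.inr ⟨[], rfl⟩
    · exact Or.inl ⟨[false], [], .E, rfl⟩
    · exact Or.inl ⟨[true], [], .E, rfl⟩

/-- the words generated from a nonterminal -/
inductive Gen : St → List Bool → Prop
  | fin (w : List Bool) : Gen .E w
  | step {q : St} {u : List (GT Bool)} {q' : St} {v : List (GT Bool)} {w : List Bool} :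
      (u, q', v) ∈ tr q → Gen q' w → Gen q (bits u ++ w ++ (bits v).reverse)

lemma fin0 : (⟨.E, []⟩ : ContextFreeRule Bool St) ∈ finRules := by simp [finRules]

lemma fin1 (b : Bool) : (⟨.E, [Symbol.terminal b, Symbol.nonterminal St.E]⟩ :
    ContextFreeRule Bool St) ∈ finRules := by
  cases b <;> simp [finRules]

lemma derives_E (w : List Bool) :
    Gr.Derives [Symbol.nonterminal St.E] (w.map Symbol.terminal) := by
  induction w with
  | nil =>
    refine ContextFreeGrammar.Produces.single
      ⟨⟨.E, []⟩, (mem_rules _).2 (Or.inr fin0), ?_⟩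
    exact ContextFreeRule.Rewrites.input_output
  | cons b w ih =>
    have h1 : Gr.Produces [Symbol.nonterminal St.E]
        [Symbol.terminal b, Symbol.nonterminal St.E] := by
      refine ⟨⟨.E, [Symbol.terminal b, Symbol.nonterminal St.E]⟩,
        (mem_rules _).2 (Or.inr (fin1 b)), ?_⟩
      exact ContextFreeRule.Rewrites.input_output
    exact h1.trans_derives (ih.append_left [Symbol.terminal b])

lemma derives_of_gen {q : St} {w : List Bool} (h : Gen q w) :
    Gr.Derives [Symbol.nonterminal q] (w.map Symbol.terminal) := by
  induction h with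
  | fin w => exact derives_E w
  | @step q u q' v w hm _ ih =>
    have h1 : Gr.Produces [Symbol.nonterminal q]
        ((bits u).map Symbol.terminal ++ [Symbol.nonterminal q'] ++
          (bits v).reverse.map Symbol.terminal) :=
      ⟨toRule q (u, q', v), (mem_rules _).2 (Or.inl ⟨q, _, hm, rfl⟩),
        ContextFreeRule.Rewrites.input_output⟩
    have h2 := (ih.append_left ((bits u).map Symbol.terminal)).append_right
      ((bits v).reverse.map Symbol.terminal)
    rw [List.map_append, List.map_append]
    exact h1.trans_derives h2

lemma uniq (u v : List Bool) (q q0 : St) (p s : List (Symbol Bool St))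
    (h : u.map Symbol.terminal ++ Symbol.nonterminal q :: v.map Symbol.terminal =
      p ++ Symbol.nonterminal q0 :: s) :
    p = u.map Symbol.terminal ∧ q0 = q ∧ s = v.map Symbol.terminal := by
  induction u generalizing p with
  | nil =>
    cases p with
    | nil =>
      simp only [List.map_nil, List.nil_append, List.cons.injEq, Symbol.nonterminal.injEq] at h
      exact ⟨rfl, h.1.symm, h.2.symm⟩
    | cons a p =>
      simp only [List.map_nil, List.nil_append, List.cons_append, List.cons.injEq] at h
      have h2 : Symbol.nonterminal q0 ∈ v.map (Symbol.terminal (N := St)) := by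
        rw [h.2]; simp
      simp at h2
  | cons b u ih =>
    cases p with
    | nil => simp at h
    | cons a p =>
      simp only [List.map_cons, List.cons_append, List.cons.injEq] at h
      obtain ⟨e1, e2, e3⟩ := ih p h.2
      exact ⟨by rw [← h.1, e1]; rfl, e2, e3⟩

lemma app1 {N : Type} (u v : List Bool) (B : N) (b : Bool) :
    List.map Symbol.terminal u ++ [Symbol.terminal b, Symbol.nonterminal B] ++
      List.map Symbol.terminal v = List.map Symbol.terminal (u ++ [b]) ++
        Symbol.nonterminal B :: List.map Symbol.terminal v := by simp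

lemma app2 {N : Type} (u v u' v' : List Bool) (B : N) :
    List.map Symbol.terminal u ++ (List.map Symbol.terminal u' ++ [Symbol.nonterminal B] ++
      List.map Symbol.terminal v') ++ List.map Symbol.terminal v =
      List.map Symbol.terminal (u ++ u') ++
        Symbol.nonterminal B :: List.map Symbol.terminal (v' ++ v) := by simp

lemma app3 {N : Type} (u v : List Bool) :
    List.map (Symbol.terminal (N := N)) u ++ [] ++ List.map Symbol.terminal v =
      List.map Symbol.terminal (u ++ v) := by simp

lemma app4 {N : Type} (p t : List (Symbol Bool N)) (B : N) (u : List Bool)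
    (h : List.map Symbol.terminal u = p ++ [Symbol.nonterminal B] ++ t) : False := by
  have h2 : Symbol.nonterminal B ∈ u.map (Symbol.terminal (N := N)) := by
    rw [h]; simp
  simp at h2

lemma app5 {N : Type} (u v w : List Bool) (B : N)
    (h : List.map Symbol.terminal w = List.map Symbol.terminal u ++ Symbol.nonterminal B ::
      List.map Symbol.terminal v) : False := by
  refine app4 (u.map Symbol.terminal) (v.map Symbol.terminal) B w ?_
  rw [h]; simp

lemma gen_of_derives {s : List (Symbol Bool St)} {w : List Bool}
    (h : Gr.Derives s (w.map Symbol.terminal)) :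
    (∀ (u v : List Bool) (q : St), s = u.map Symbol.terminal ++ Symbol.nonterminal q ::
      v.map Symbol.terminal → ∃ w', w = u ++ w' ++ v ∧ Gen q w') ∧
    (∀ u : List Bool, s = u.map Symbol.terminal → w = u) := by
  induction h using Relation.ReflTransGen.head_induction_on with
  | refl =>
    constructor
    · intro u v q hs
      exact (app5 _ _ _ _ hs).elim
    · intro u hu
      exact List.map_injective_iff.2 (fun a b h => by injection h) hu
  | @head s s' hp _ ih =>
    obtain ⟨r, hr, hrw⟩ := hp
    obtain ⟨p, t, hs, hs'⟩ := hrw.exists_parts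
    constructor
    · intro u v q hs0
      rw [hs0] at hs
      simp only [List.append_assoc, List.singleton_append] at hs
      obtain ⟨e1, e2, e3⟩ := uniq u v q r.input p t hs
      rcases (mem_rules r).1 hr with ⟨q1, ⟨u', q', v'⟩, hm, rfl⟩ | hf
      · have e2' : q1 = q := e2
        subst e2'
        obtain ⟨w', hw', hg⟩ := ih.1 (u ++ bits u') ((bits v').reverse ++ v) q' (by
          rw [hs', e1, e3]
          exact app2 _ _ _ _ _)
        refine ⟨bits u' ++ w' ++ (bits v').reverse, ?_, Gen.step hm hg⟩
        rw [hw']
        simp
      · simp only [finRules, List.mem_cons, List.not_mem_nil, or_false] at hf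
        rcases hf with rfl | rfl | rfl
        · have e2' : St.E = q := e2
          subst e2'
          have := ih.2 (u ++ v) (by rw [hs', e1, e3]; exact app3 _ _)
          exact ⟨[], by rw [this]; simp, Gen.fin _⟩
        · have e2' : St.E = q := e2
          subst e2'
          obtain ⟨w', hw', -⟩ := ih.1 (u ++ [false]) v .E (by rw [hs', e1, e3]; exact app1 _ _ _ _)
          exact ⟨false :: w', by rw [hw']; simp, Gen.fin _⟩
        · have e2' : St.E = q := e2
          subst e2'
          obtain ⟨w', hw', -⟩ := ih.1 (u ++ [true]) v .E (by rw [hs', e1, e3]; exact app1 _ _ _ _)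
          exact ⟨true :: w', by rw [hw']; simp, Gen.fin _⟩
    · intro u hu
      rw [hu] at hs
      exact (app4 _ _ _ _ hs).elim

theorem mem_language_iff_gen (w : List Bool) : w ∈ Gr.language ↔ Gen .S w := by
  rw [ContextFreeGrammar.mem_language_iff]
  constructor
  · intro h
    obtain ⟨w', hw', hg⟩ := (gen_of_derives h).1 [] [] .S rfl
    rw [hw']
    simpa using hg
  · exact fun h => derives_of_gen h

/-- runs on two streams of tokens -/
inductive Acc : St → List (GT Bool) → List (GT Bool) → Prop
  | fin (l r : List (GT Bool)) : Acc .E l r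
  | step {q : St} {u : List (GT Bool)} {q' : St} {v l r : List (GT Bool)} :
      (u, q', v) ∈ tr q → Acc q' l r → Acc q (u ++ l) (v ++ r)

lemma bits_append (l l' : List (GT Bool)) : bits (l ++ l') = bits l ++ bits l' := by
  simp [bits, gbits]

lemma bits_cons (t : GT Bool) (l : List (GT Bool)) : bits (t :: l) = t.bits id ++ bits l := by
  simp [bits, gbits]

lemma parse (u l : List (GT Bool)) (k : ℕ) (hk : 3 ≤ k) (X Y : List Bool)
    (h : bits u ++ Y = bits l ++ (List.replicate k true ++ X)) :
    ∃ l', l = u ++ l' ∧ Y = bits l' ++ (List.replicate k true ++ X) := by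
  induction u generalizing l with
  | nil => exact ⟨l, rfl, by simpa [bits, gbits] using h⟩
  | cons t u ih =>
    cases l with
    | nil =>
      exfalso
      obtain ⟨k', rfl⟩ : ∃ k', k = k' + 3 := ⟨k - 3, by omega⟩
      rw [bits_cons] at h
      simp only [bits, gbits, List.flatMap_nil, List.nil_append, List.replicate_succ,
        List.cons_append] at h
      cases t <;> simp [GT.bits] at h
    | cons t' l =>
      rw [bits_cons, bits_cons] at h
      have h1 : t = t' ∧ bits u ++ Y = bits l ++ (List.replicate k true ++ X) := by
        cases t <;> cases t' <;> simp_all [GT.bits]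
      obtain ⟨rfl, h2⟩ := h1
      obtain ⟨l', hl', hY⟩ := ih l h2
      exact ⟨l', by rw [hl']; rfl, hY⟩

lemma acc_of_gen {q : St} {w : List Bool} (h : Gen q w) : ∀ (l r : List (GT Bool)) (k : ℕ),
    3 ≤ k → w = bits l ++ List.replicate k true ++ (bits r).reverse → Acc q l r := by
  induction h with
  | fin w => exact fun l r _ _ _ => Acc.fin l r
  | @step q u q' v w hm _ ih =>
    intro l r k hk hw
    rw [List.append_assoc, List.append_assoc] at hw
    obtain ⟨l', hl', hY⟩ := parse u l k hk _ _ hw
    have h1 : bits v ++ w.reverse = bits r ++ (List.replicate k true ++ (bits l').reverse) := by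
      have := congrArg List.reverse hY
      simpa using this
    obtain ⟨r', hr', hY'⟩ := parse v r k hk _ _ h1
    have h2 : w = bits l' ++ List.replicate k true ++ (bits r').reverse := by
      have := congrArg List.reverse hY'
      simpa using this
    rw [hl', hr']
    exact Acc.step hm (ih l' r' k hk h2)

lemma gen_of_acc {q : St} {l r : List (GT Bool)} (h : Acc q l r) (k : ℕ) :
    Gen q (bits l ++ List.replicate k true ++ (bits r).reverse) := by
  induction h with
  | fin l r => exact Gen.fin _
  | @step q u q' v l r hm _ ih =>
    have h1 := Gen.step hm ih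
    have e : bits (u ++ l) ++ List.replicate k true ++ (bits (v ++ r)).reverse =
        bits u ++ (bits l ++ List.replicate k true ++ (bits r).reverse) ++ (bits v).reverse := by
      rw [bits_append, bits_append]
      simp
    rw [e]
    exact h1

theorem acc_iff (l r : List (GT Bool)) (k : ℕ) (hk : 3 ≤ k) :
    bits l ++ List.replicate k true ++ (bits r).reverse ∈ Gr.language ↔ Acc .S l r := by
  rw [mem_language_iff_gen]
  exact ⟨fun h => acc_of_gen h l r k hk rfl, fun h => gen_of_acc h k⟩

end Pool.Agent.H540R2.Lin
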