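import Mathlib
import Pool.Agent.H540R2.Lin.Gram

/-!
# The language of the grammar in terms of paths
-/

set_option autoImplicit false

namespace Pool.Agent.H540R2.Lin

open List

lemma acc_inv (q : St) (l r : List (GT Bool)) : Acc q l r ↔ q = .E ∨
    ∃ d ∈ tr q, ∃ l' r', l = d.1 ++ l' ∧ r = d.2.2 ++ r' ∧ Acc d.2.1 l' r' := by
  constructor
  · intro h
    cases h with
    | fin => exact Or.inl rfl
    | step hm h => exact Or.inr ⟨_, hm, _, _, rfl, rfl, h⟩
  · rintro (rfl | ⟨⟨u, q', v⟩, hm, l', r', rfl, rfl, h⟩)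
    · exact Acc.fin _ _
    · exact Acc.step hm h

-- start
lemma S_iff (l r : List (GT Bool)) : Acc .S l r ↔ Acc .T l r ∨ Acc .A l r := by
  rw [acc_inv]; simp [tr]

lemma T_nil (r : List (GT Bool)) : ¬ Acc .T [] r := by
  rw [acc_inv]; simp [tr]

lemma T_D (l r : List (GT Bool)) : Acc .T (.D :: l) r ↔ Acc .U l r := by
  rw [acc_inv]; simp [tr]

lemma T_skip (t : GT Bool) (ht : t ≠ .D) (l r : List (GT Bool)) :
    Acc .T (t :: l) r ↔ Acc .T l r := by
  rw [acc_inv]
  rcases t with _ | _ | _ | _ | (_ | _) <;> simp_all [tr]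

lemma U_D (l r : List (GT Bool)) : Acc .U l (.D :: r) ↔ Acc .S l r := by
  rw [acc_inv]; simp [tr]

lemma U_skip (t : GT Bool) (ht : t ≠ .D) (l r : List (GT Bool)) :
    Acc .U l (t :: r) ↔ Acc .U l r := by
  rw [acc_inv]
  rcases t with _ | _ | _ | _ | (_ | _) <;> simp_all [tr]

lemma A_nil (r : List (GT Bool)) : ¬ Acc .A [] r := by
  rw [acc_inv]; simp [tr]

lemma A_H (l r : List (GT Bool)) : ¬ Acc .A (.H :: l) r := by
  rw [acc_inv]; simp [tr]

lemma A_P (l r : List (GT Bool)) : Acc .A (.P :: l) r ↔ Acc .A l r := by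
  rw [acc_inv]; simp [tr]

lemma A_B (l r : List (GT Bool)) : Acc .A (.B :: l) r ↔ Acc .A l r := by
  rw [acc_inv]; simp [tr]

lemma A_V (b : Bool) (l r : List (GT Bool)) : Acc .A (.V b :: l) r ↔ Acc .A l r ∨
    (b = true ∧ ∃ l', l = .B :: l' ∧ Acc .cR l' r) := by
  rw [acc_inv]; cases b <;> simp [tr]

-- choose on the right
lemma cR_H (l r : List (GT Bool)) : ¬ Acc .cR l (.H :: r) := by
  rw [acc_inv]; simp [tr]

lemma cR_P (l r : List (GT Bool)) : Acc .cR l (.P :: r) ↔ Acc .cR l r := by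
  rw [acc_inv]; simp [tr]

lemma cR_B (l r : List (GT Bool)) : Acc .cR l (.B :: r) ↔ Acc .cR l r := by
  rw [acc_inv]; simp [tr]

lemma cR_V (b : Bool) (l r : List (GT Bool)) : Acc .cR l (.V b :: r) ↔ Acc .cR l r ∨
    (b = true ∧ Acc .mR l r) := by
  rw [acc_inv]; cases b <;> simp [tr]

-- choose on the left
lemma cL_H (l r : List (GT Bool)) : ¬ Acc .cL (.H :: l) r := by
  rw [acc_inv]; simp [tr]

lemma cL_P (l r : List (GT Bool)) : Acc .cL (.P :: l) r ↔ Acc .cL l r := by
  rw [acc_inv]; simp [tr]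

lemma cL_B (l r : List (GT Bool)) : Acc .cL (.B :: l) r ↔ Acc .cL l r := by
  rw [acc_inv]; simp [tr]

lemma cL_V (b : Bool) (l r : List (GT Bool)) : Acc .cL (.V b :: l) r ↔ Acc .cL l r ∨
    (b = true ∧ Acc .mL l r) := by
  rw [acc_inv]; cases b <;> simp [tr]

lemma cL_D (l r : List (GT Bool)) : Acc .cL (.D :: l) r ↔ ∃ r', r = .B :: r' := by
  rw [acc_inv]; simp [tr]
  constructor
  · rintro ⟨r', h, -⟩; exact ⟨r', h⟩
  · rintro ⟨r', h⟩; exact ⟨r', h, Acc.fin _ _⟩

-- match
lemma mR_PP (l r : List (GT Bool)) : Acc .mR (.P :: l) (.P :: r) ↔ Acc .mR l r := by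
  rw [acc_inv]; simp [tr]

lemma mR_BB (l r : List (GT Bool)) : Acc .mR (.B :: l) (.B :: r) ↔ Acc .fL l r := by
  rw [acc_inv]; simp [tr]

lemma mR_PB (l r : List (GT Bool)) : ¬ Acc .mR (.P :: l) (.B :: r) := by
  rw [acc_inv]; simp [tr]

lemma mR_BP (l r : List (GT Bool)) : ¬ Acc .mR (.B :: l) (.P :: r) := by
  rw [acc_inv]; simp [tr]

lemma mL_PP (l r : List (GT Bool)) : Acc .mL (.P :: l) (.P :: r) ↔ Acc .mL l r := by
  rw [acc_inv]; simp [tr]

lemma mL_BB (l r : List (GT Bool)) : Acc .mL (.B :: l) (.B :: r) ↔ Acc .fR l r := by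
  rw [acc_inv]; simp [tr]

lemma mL_PB (l r : List (GT Bool)) : ¬ Acc .mL (.P :: l) (.B :: r) := by
  rw [acc_inv]; simp [tr]

lemma mL_BP (l r : List (GT Bool)) : ¬ Acc .mL (.B :: l) (.P :: r) := by
  rw [acc_inv]; simp [tr]

-- finish a block
lemma fL_H (l r : List (GT Bool)) : Acc .fL (.H :: l) r ↔ Acc .cL l r := by
  rw [acc_inv]; simp [tr]

lemma fL_skip (t : GT Bool) (ht : t ≠ .D) (ht' : t ≠ .H) (l r : List (GT Bool)) :
    Acc .fL (t :: l) r ↔ Acc .fL l r := by
  rw [acc_inv]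
  rcases t with _ | _ | _ | _ | (_ | _) <;> simp_all [tr]

lemma fR_H (l r : List (GT Bool)) : Acc .fR l (.H :: r) ↔ Acc .cR l r := by
  rw [acc_inv]; simp [tr]

lemma fR_skip (t : GT Bool) (ht : t ≠ .D) (ht' : t ≠ .H) (l r : List (GT Bool)) :
    Acc .fR l (t :: r) ↔ Acc .fR l r := by
  rw [acc_inv]
  rcases t with _ | _ | _ | _ | (_ | _) <;> simp_all [tr]

/-- the code of an edge -/
def entry {α : Type} (z : α) (a a' : ℕ) : List (GT α) :=
  GT.V z :: (replicate a .P ++ GT.B :: (replicate a' .P ++ [GT.B]))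

/-- a list of edges -/
def body {α : Type} (E : List (α × ℕ × ℕ)) : List (GT α) :=
  E.flatMap (fun e => entry e.1 e.2.1 e.2.2)

lemma body_cons {α : Type} (e : α × ℕ × ℕ) (E : List (α × ℕ × ℕ)) :
    body (e :: E) = entry e.1 e.2.1 e.2.2 ++ body E := by
  simp [body]

lemma entry_sk {α : Type} {z : α} {a a' : ℕ} {t : GT α} (h : t ∈ entry z a a') :
    t ≠ .D ∧ t ≠ .H := by
  simp only [entry, mem_cons, mem_append, mem_replicate, not_mem_nil, or_false] at h
  rcases h with rfl | ⟨-, rfl⟩ | rfl | ⟨-, rfl⟩ | rfl <;> simp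

lemma body_sk {α : Type} {E : List (α × ℕ × ℕ)} {t : GT α} (h : t ∈ body E) :
    t ≠ .D ∧ t ≠ .H := by
  obtain ⟨e, -, he⟩ := List.mem_flatMap.1 h
  exact entry_sk he

lemma fL_body (R : List (GT Bool)) (hR : ∀ t ∈ R, t ≠ .D ∧ t ≠ .H) (l r : List (GT Bool)) :
    Acc .fL (R ++ .H :: l) r ↔ Acc .cL l r := by
  induction R with
  | nil => exact fL_H l r
  | cons t R ih =>
    have h := hR t (by simp)
    rw [cons_append, fL_skip t h.1 h.2, ih (fun t ht => hR t (by simp [ht]))]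

lemma fR_body (R : List (GT Bool)) (hR : ∀ t ∈ R, t ≠ .D ∧ t ≠ .H) (l r : List (GT Bool)) :
    Acc .fR l (R ++ .H :: r) ↔ Acc .cR l r := by
  induction R with
  | nil => exact fR_H l r
  | cons t R ih =>
    have h := hR t (by simp)
    rw [cons_append, fR_skip t h.1 h.2, ih (fun t ht => hR t (by simp [ht]))]

lemma mR_codes (c a : ℕ) (l r : List (GT Bool)) :
    Acc .mR (replicate c .P ++ .B :: l) (replicate a .P ++ .B :: r) ↔ c = a ∧ Acc .fL l r := by
  induction c generalizing a with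
  | zero =>
    cases a with
    | zero => simp [mR_BB]
    | succ a => simp [replicate_succ, mR_BP]
  | succ c ih =>
    cases a with
    | zero => simp [replicate_succ, mR_PB]
    | succ a => simp [replicate_succ, mR_PP, ih]

lemma mL_codes (c a : ℕ) (l r : List (GT Bool)) :
    Acc .mL (replicate c .P ++ .B :: l) (replicate a .P ++ .B :: r) ↔ c = a ∧ Acc .fR l r := by
  induction c generalizing a with
  | zero =>
    cases a with
    | zero => simp [mL_BB]
    | succ a => simp [replicate_succ, mL_BP]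
  | succ c ih =>
    cases a with
    | zero => simp [replicate_succ, mL_PB]
    | succ a => simp [replicate_succ, mL_PP, ih]

lemma cR_reps (a : ℕ) (l r : List (GT Bool)) :
    Acc .cR l (replicate a .P ++ .B :: r) ↔ Acc .cR l r := by
  induction a with
  | zero => simp [cR_B]
  | succ a ih => simp [replicate_succ, cR_P, ih]

lemma cL_reps (a : ℕ) (l r : List (GT Bool)) :
    Acc .cL (replicate a .P ++ .B :: l) r ↔ Acc .cL l r := by
  induction a with
  | zero => simp [cL_B]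
  | succ a ih => simp [replicate_succ, cL_P, ih]

lemma A_reps (a : ℕ) (l r : List (GT Bool)) :
    Acc .A (replicate a .P ++ .B :: l) r ↔ Acc .A l r := by
  induction a with
  | zero => simp [A_B]
  | succ a ih => simp [replicate_succ, A_P, ih]

/-- choosing an edge on the right -/
lemma cR_block (m : ℕ) (E : List (Bool × ℕ × ℕ)) (hE : ∀ e ∈ E, e.2.2 < m) (c : ℕ) (R : List (GT Bool))
    (hR : ∀ t ∈ R, t ≠ .D ∧ t ≠ .H) (l r : List (GT Bool)) (Q : ℕ → Prop)
    (hQ : ∀ a' < m, ∀ (R' : List (GT Bool)), (∀ t ∈ R', t ≠ .D ∧ t ≠ .H) →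
      (Acc .cL l (replicate a' .P ++ .B :: (R' ++ .H :: r)) ↔ Q a')) :
    Acc .cR (replicate c .P ++ .B :: (R ++ .H :: l)) (body E ++ .H :: r) ↔
      ∃ a', (true, c, a') ∈ E ∧ Q a' := by
  induction E with
  | nil =>
    simp [body, cR_H]
  | cons e E ih =>
    obtain ⟨z, a, a'⟩ := e
    have ih := ih (fun e he => hE e (by simp [he]))
    have ha' : a' < m := hE (z, a, a') (by simp)
    rw [body_cons]
    simp only [entry, cons_append, append_assoc, nil_append]
    rw [cR_V, cR_reps, cR_reps, ih, mR_codes, fL_body R hR,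
      hQ a' ha' (body E) (fun t ht => body_sk ht)]
    constructor
    · rintro (⟨b', h1, h2⟩ | ⟨rfl, rfl, h⟩)
      · exact ⟨b', by simp [h1], h2⟩
      · exact ⟨a', by simp, h⟩
    · rintro ⟨b', h1, h2⟩
      rcases mem_cons.1 h1 with h1 | h1
      · simp only [Prod.mk.injEq] at h1
        obtain ⟨rfl, rfl, rfl⟩ := h1
        exact Or.inr ⟨rfl, rfl, h2⟩
      · exact Or.inl ⟨b', h1, h2⟩

/-- choosing an edge on the left -/
lemma cL_block (m : ℕ) (E : List (Bool × ℕ × ℕ)) (hE : ∀ e ∈ E, e.2.2 < m) (c : ℕ) (R : List (GT Bool))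
    (hR : ∀ t ∈ R, t ≠ .D ∧ t ≠ .H) (l r : List (GT Bool)) (Q : ℕ → Prop)
    (hQ : ∀ a' < m, ∀ (R' : List (GT Bool)), (∀ t ∈ R', t ≠ .D ∧ t ≠ .H) →
      (Acc .cR (replicate a' .P ++ .B :: (R' ++ .H :: l)) r ↔ Q a')) :
    Acc .cL (body E ++ .H :: l) (replicate c .P ++ .B :: (R ++ .H :: r)) ↔
      ∃ a', (true, c, a') ∈ E ∧ Q a' := by
  induction E with
  | nil =>
    simp [body, cL_H]
  | cons e E ih =>
    obtain ⟨z, a, a'⟩ := e
    have ih := ih (fun e he => hE e (by simp [he]))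
    have ha' : a' < m := hE (z, a, a') (by simp)
    rw [body_cons]
    simp only [entry, cons_append, append_assoc, nil_append]
    rw [cL_V, cL_reps, cL_reps, ih, mL_codes, fR_body R hR,
      hQ a' ha' (body E) (fun t ht => body_sk ht)]
    constructor
    · rintro (⟨b', h1, h2⟩ | ⟨rfl, rfl, h⟩)
      · exact ⟨b', by simp [h1], h2⟩
      · exact ⟨a', by simp, h⟩
    · rintro ⟨b', h1, h2⟩
      rcases mem_cons.1 h1 with h1 | h1
      · simp only [Prod.mk.injEq] at h1
        obtain ⟨rfl, rfl, rfl⟩ := h1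
        exact Or.inr ⟨rfl, rfl, h2⟩
      · exact Or.inl ⟨b', h1, h2⟩

/-- choosing the first edge -/
lemma A_block (m : ℕ) (E : List (Bool × ℕ × ℕ)) (hE : ∀ e ∈ E, e.2.2 < m) (l r : List (GT Bool)) (Q : ℕ → Prop)
    (hQ : ∀ a' < m, ∀ (R' : List (GT Bool)), (∀ t ∈ R', t ≠ .D ∧ t ≠ .H) →
      (Acc .cR (replicate a' .P ++ .B :: (R' ++ .H :: l)) r ↔ Q a')) :
    Acc .A (body E ++ .H :: l) r ↔ ∃ a', (true, 0, a') ∈ E ∧ Q a' := by
  induction E with
  | nil =>
    simp [body, A_H]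
  | cons e E ih =>
    obtain ⟨z, a, a'⟩ := e
    have ih := ih (fun e he => hE e (by simp [he]))
    have ha' : a' < m := hE (z, a, a') (by simp)
    rw [body_cons]
    simp only [entry, cons_append, append_assoc, nil_append]
    rw [A_V, A_reps, A_reps, ih]
    constructor
    · rintro (⟨b', h1, h2⟩ | ⟨rfl, l', h1, h2⟩)
      · exact ⟨b', by simp [h1], h2⟩
      · cases a with
        | zero =>
          simp only [replicate_zero, nil_append, cons.injEq, true_and] at h1
          rw [← h1, hQ a' ha' (body E) (fun t ht => body_sk ht)] at h2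
          exact ⟨a', by simp, h2⟩
        | succ a => simp [replicate_succ] at h1
    · rintro ⟨b', h1, h2⟩
      rcases mem_cons.1 h1 with h1 | h1
      · simp only [Prod.mk.injEq] at h1
        obtain ⟨rfl, rfl, rfl⟩ := h1
        refine Or.inr ⟨rfl, _, rfl, ?_⟩
        rw [hQ b' ha' (body E) (fun t ht => body_sk ht)]
        exact h2
      · exact Or.inl ⟨b', h1, h2⟩

/-- the edges from a layer to the next one -/
def ent {α : Type} (m : ℕ) (y : Fin m → Fin m → α) : List (α × ℕ × ℕ) :=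
  (List.finRange m).flatMap (fun a => (List.finRange m).map (fun a' => (y a a', a.1, a'.1)))

lemma mem_ent {m : ℕ} (y : Fin m → Fin m → Bool) (c : Fin m) (a' : ℕ) :
    (true, c.1, a') ∈ ent m y ↔ ∃ b : Fin m, b.1 = a' ∧ y c b = true := by
  simp only [ent, mem_flatMap, mem_finRange, mem_map, true_and, Prod.mk.injEq]
  constructor
  · rintro ⟨a, b, h1, h2, h3⟩
    have : a = c := Fin.ext h2
    subst this
    exact ⟨b, h3, h1⟩
  · rintro ⟨b, h1, h2⟩
    exact ⟨c, b, h2, rfl, h1⟩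

/-- the streams: every second layer, then the end marker -/
def strm {α : Type} (m : ℕ) : ℕ → (ℕ → Fin m → Fin m → α) → List (GT α)
  | 0, _ => [GT.D]
  | k + 1, y => body (ent m (y 0)) ++ GT.H :: strm m k (fun l => y (l + 2))

/-- vertex `0` of layer `k` is reachable from vertex `c` of layer `0` -/
def pth {m : ℕ} : ℕ → (ℕ → Fin m → Fin m → Bool) → Fin m → Prop
  | 0, _, c => c.1 = 0
  | k + 1, y, c => ∃ b, y 0 c b = true ∧ pth k (fun l => y (l + 1)) b

lemma ent_lt {m : ℕ} (y : Fin m → Fin m → Bool) : ∀ e ∈ ent m y, e.2.2 < m := by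
  intro e he
  simp only [ent, mem_flatMap, mem_finRange, mem_map, true_and] at he
  obtain ⟨a, b, rfl⟩ := he
  exact b.2

/-- the property `Q` of the block lemmas for a predicate on the vertices -/
def lft {m : ℕ} (q : Fin m → Prop) (a' : ℕ) : Prop := ∃ b : Fin m, b.1 = a' ∧ q b

lemma lft_iff {m : ℕ} (q : Fin m → Prop) (a' : ℕ) (h : a' < m) : lft q a' ↔ q ⟨a', h⟩ := by
  constructor
  · rintro ⟨b, rfl, hb⟩; exact hb
  · intro h'; exact ⟨⟨a', h⟩, rfl, h'⟩

lemma ex_ent {m : ℕ} (y : Fin m → Fin m → Bool) (c : Fin m) (q : Fin m → Prop) :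
    (∃ a', (true, c.1, a') ∈ ent m y ∧ lft q a') ↔ ∃ b, y c b = true ∧ q b := by
  constructor
  · rintro ⟨a', h1, b, h2, h3⟩
    obtain ⟨b', h4, h5⟩ := (mem_ent y c a').1 h1
    have : b' = b := Fin.ext (h4.trans h2.symm)
    subst this
    exact ⟨b', h5, h3⟩
  · rintro ⟨b, h1, h2⟩
    exact ⟨b.1, (mem_ent y c b.1).2 ⟨b, rfl, h1⟩, b, rfl, h2⟩

lemma step_R {m : ℕ} (XL XR : List (GT Bool)) (k : ℕ)
    (hL : ∀ (y : ℕ → Fin m → Fin m → Bool) (c : Fin m) (R : List (GT Bool)),
      (∀ t ∈ R, t ≠ .D ∧ t ≠ .H) →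
      (Acc .cL (strm m k y ++ XL)
        (replicate c.1 .P ++ .B :: (R ++ .H :: (strm m k (fun l => y (l + 1)) ++ XR))) ↔
        pth (2 * k) y c))
    (y : ℕ → Fin m → Fin m → Bool) (c : Fin m) (R : List (GT Bool))
    (hR : ∀ t ∈ R, t ≠ .D ∧ t ≠ .H) :
    Acc .cR (replicate c.1 .P ++ .B :: (R ++ .H :: (strm m k (fun l => y (l + 1)) ++ XL)))
        (strm m (k + 1) y ++ XR) ↔ pth (2 * k + 1) y c := by
  have h2 := cR_block m (ent m (y 0)) (ent_lt _) c.1 R hR (strm m k (fun l => y (l + 1)) ++ XL)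
    (strm m k (fun l => y (l + 2)) ++ XR)
    (lft (fun b => pth (2 * k) (fun l => y (l + 1)) b)) (fun a' ha' R' hR' => by
      rw [lft_iff _ _ ha']
      exact hL (fun l => y (l + 1)) ⟨a', ha'⟩ R' hR')
  rw [ex_ent] at h2
  simp only [strm, pth, append_assoc, cons_append] at h2 ⊢
  exact h2

lemma step_L {m : ℕ} (XL XR : List (GT Bool)) (k : ℕ)
    (hRr : ∀ (y : ℕ → Fin m → Fin m → Bool) (c : Fin m) (R : List (GT Bool)),
      (∀ t ∈ R, t ≠ .D ∧ t ≠ .H) →
      (Acc .cR (replicate c.1 .P ++ .B :: (R ++ .H :: (strm m k (fun l => y (l + 1)) ++ XL)))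
        (strm m (k + 1) y ++ XR) ↔ pth (2 * k + 1) y c))
    (y : ℕ → Fin m → Fin m → Bool) (c : Fin m) (R : List (GT Bool))
    (hR : ∀ t ∈ R, t ≠ .D ∧ t ≠ .H) :
    Acc .cL (strm m (k + 1) y ++ XL)
        (replicate c.1 .P ++ .B :: (R ++ .H :: (strm m (k + 1) (fun l => y (l + 1)) ++ XR))) ↔
        pth (2 * (k + 1)) y c := by
  have h2 := cL_block m (ent m (y 0)) (ent_lt _) c.1 R hR (strm m k (fun l => y (l + 2)) ++ XL)
    (strm m (k + 1) (fun l => y (l + 1)) ++ XR)
    (lft (fun b => pth (2 * k + 1) (fun l => y (l + 1)) b)) (fun a' ha' R' hR' => by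
      rw [lft_iff _ _ ha']
      exact hRr (fun l => y (l + 1)) ⟨a', ha'⟩ R' hR')
  rw [ex_ent] at h2
  have e : 2 * (k + 1) = (2 * k + 1) + 1 := by ring
  rw [e]
  rw [show strm m (k + 1) y = body (ent m (y 0)) ++ GT.H :: strm m k (fun l => y (l + 2)) from rfl]
  simp only [pth, append_assoc, cons_append] at h2 ⊢
  exact h2

lemma macroL {m : ℕ} (XL XR : List (GT Bool)) (k : ℕ) :
    ∀ (y : ℕ → Fin m → Fin m → Bool) (c : Fin m) (R : List (GT Bool)),
      (∀ t ∈ R, t ≠ .D ∧ t ≠ .H) →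
      (Acc .cL (strm m k y ++ XL)
        (replicate c.1 .P ++ .B :: (R ++ .H :: (strm m k (fun l => y (l + 1)) ++ XR))) ↔
        pth (2 * k) y c) := by
  induction k with
  | zero =>
    intro y c R hR
    simp only [strm, pth, Nat.mul_zero, cons_append, nil_append]
    rw [cL_D]
    constructor
    · rintro ⟨r', h⟩
      rcases Nat.eq_zero_or_pos c.1 with h0 | h0
      · exact h0
      · obtain ⟨c', hc'⟩ : ∃ c', c.1 = c' + 1 := ⟨c.1 - 1, by omega⟩
        rw [hc'] at h
        simp [replicate_succ] at h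
    · intro h
      rw [h]
      exact ⟨_, rfl⟩
  | succ k ih => exact step_L XL XR k (step_R XL XR k ih)

lemma macroR {m : ℕ} (XL XR : List (GT Bool)) (k : ℕ)
    (y : ℕ → Fin m → Fin m → Bool) (c : Fin m) (R : List (GT Bool))
    (hR : ∀ t ∈ R, t ≠ .D ∧ t ≠ .H) :
    Acc .cR (replicate c.1 .P ++ .B :: (R ++ .H :: (strm m k (fun l => y (l + 1)) ++ XL)))
        (strm m (k + 1) y ++ XR) ↔ pth (2 * k + 1) y c :=
  step_R XL XR k (macroL XL XR k) y c R hR

lemma macroA {m : ℕ} [NeZero m] (XL XR : List (GT Bool)) (k : ℕ)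
    (y : ℕ → Fin m → Fin m → Bool) :
    Acc .A (strm m (k + 1) y ++ XL) (strm m (k + 1) (fun l => y (l + 1)) ++ XR) ↔
      pth (2 * (k + 1)) y (0 : Fin m) := by
  have h2 := A_block m (ent m (y 0)) (ent_lt _) (strm m k (fun l => y (l + 2)) ++ XL)
    (strm m (k + 1) (fun l => y (l + 1)) ++ XR)
    (lft (fun b => pth (2 * k + 1) (fun l => y (l + 1)) b)) (fun a' ha' R' hR' => by
      rw [lft_iff _ _ ha']
      exact macroR XL XR k (fun l => y (l + 1)) ⟨a', ha'⟩ R' hR')
  have h3 := ex_ent (y 0) (0 : Fin m) (fun b => pth (2 * k + 1) (fun l => y (l + 1)) b)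
  rw [show ((0 : Fin m) : ℕ) = 0 from rfl] at h3
  rw [h3] at h2
  have e : 2 * (k + 1) = (2 * k + 1) + 1 := by ring
  rw [e]
  rw [show strm m (k + 1) y = body (ent m (y 0)) ++ GT.H :: strm m k (fun l => y (l + 2)) from rfl]
  simp only [pth, append_assoc, cons_append] at h2 ⊢
  exact h2

lemma T_strm {m : ℕ} (k : ℕ) (y : ℕ → Fin m → Fin m → Bool) (l r : List (GT Bool)) :
    Acc .T (strm m k y ++ l) r ↔ Acc .U l r := by
  induction k generalizing y with
  | zero => simp only [strm, cons_append, nil_append]; exact T_D l r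
  | succ k ih =>
    have h : ∀ (X : List (GT Bool)), (∀ t ∈ X, t ≠ .D) → ∀ l', Acc .T (X ++ l') r ↔
        Acc .T l' r := by
      intro X
      induction X with
      | nil => intro _ l'; rfl
      | cons t X ihX =>
        intro hX l'
        rw [cons_append, T_skip t (hX t (by simp)), ihX (fun t ht => hX t (by simp [ht]))]
    simp only [strm, append_assoc, cons_append]
    rw [h _ (fun t ht => (body_sk ht).1), T_skip _ (by simp), ih]

lemma U_strm {m : ℕ} (k : ℕ) (y : ℕ → Fin m → Fin m → Bool) (l r : List (GT Bool)) :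
    Acc .U l (strm m k y ++ r) ↔ Acc .S l r := by
  induction k generalizing y with
  | zero => simp only [strm, cons_append, nil_append]; exact U_D l r
  | succ k ih =>
    have h : ∀ (X : List (GT Bool)), (∀ t ∈ X, t ≠ .D) → ∀ r', Acc .U l (X ++ r') ↔
        Acc .U l r' := by
      intro X
      induction X with
      | nil => intro _ l'; rfl
      | cons t X ihX =>
        intro hX l'
        rw [cons_append, U_skip t (hX t (by simp)), ihX (fun t ht => hX t (by simp [ht]))]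
    simp only [strm, append_assoc, cons_append]
    rw [h _ (fun t ht => (body_sk ht).1), U_skip _ (by simp), ih]

/-- the left stream of a list of copies -/
def lstr {α : Type} (m k : ℕ) (ys : List (ℕ → Fin m → Fin m → α)) : List (GT α) :=
  ys.flatMap (fun y => strm m k y)

/-- the right stream of a list of copies -/
def rstr {α : Type} (m k : ℕ) (ys : List (ℕ → Fin m → Fin m → α)) : List (GT α) :=
  ys.flatMap (fun y => strm m k (fun l => y (l + 1)))

/-- the language of the grammar on the codes of lists of layered graphs -/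
theorem S_copies {m : ℕ} [NeZero m] (k : ℕ) (ys : List (ℕ → Fin m → Fin m → Bool)) :
    Acc .S (lstr m (k + 1) ys) (rstr m (k + 1) ys) ↔
      ∃ y ∈ ys, pth (2 * (k + 1)) y (0 : Fin m) := by
  induction ys with
  | nil =>
    simp only [lstr, rstr, flatMap_nil, not_mem_nil, false_and, exists_false, iff_false]
    rw [S_iff]
    rintro (h | h)
    · exact T_nil _ h
    · exact A_nil _ h
  | cons y ys ih =>
    have e1 : lstr m (k + 1) (y :: ys) = strm m (k + 1) y ++ lstr m (k + 1) ys := by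
      simp [lstr]
    have e2 : rstr m (k + 1) (y :: ys) = strm m (k + 1) (fun l => y (l + 1)) ++
        rstr m (k + 1) ys := by
      simp [rstr]
    rw [e1, e2, S_iff, T_strm, U_strm, ih, macroA]
    simp only [mem_cons, exists_eq_or_imp]
    exact or_comm

end Pool.Agent.H540R2.Lin
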