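import Mathlib
import Pool.Agent.H540R2.Lin.Macro
import Pool.Agent.H540R2.Lift.RLow

/-!
# Codes of layered graphs as substitutions
-/

set_option autoImplicit false
set_option linter.unusedSectionVars false

namespace Pool.Agent.H540R2

variable {n M : ℕ}

/-- substitution of nodes for the input variables -/
def Node.subst (s : Fin n → Node M) : Node n → Node M
  | .var i => s i
  | .const b => .const b
  | .gate j => .gate j

/-- substitution of nodes for the input variables -/
def Gate.subst (s : Fin n → Node M) : Gate n → Gate M
  | .and a b => .and (a.subst s) (b.subst s)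
  | .or a b => .or (a.subst s) (b.subst s)
  | .not a => .not (a.subst s)

lemma Node.subst_wires (s : Fin n → Node M) (hs : ∀ i j, (s i).wires j = 0) (a : Node n)
    (j : ℕ) : (a.subst s).wires j = a.wires j := by
  cases a with
  | var i => exact hs i j
  | const b => rfl
  | gate i => rfl

lemma Gate.subst_wires (s : Fin n → Node M) (hs : ∀ i j, (s i).wires j = 0) (g : Gate n)
    (j : ℕ) : (g.subst s).wires j = g.wires j := by
  cases g <;> simp [Gate.subst, Gate.wires, Node.subst_wires s hs]

/-- substitution of variables and constants for the input variables -/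
def Circuit.subst (C : Circuit n) (s : Fin n → Node M) (hs : ∀ i j, (s i).wires j = 0) :
    Circuit M where
  size := C.size
  gate := fun i => (C.gate i).subst s
  out := C.out.subst s
  gate_lt := fun i hi j hj => C.gate_lt i hi j (by rwa [Gate.subst_wires s hs] at hj)
  out_lt := fun j hj => C.out_lt j (by rwa [Node.subst_wires s hs] at hj)

lemma Node.eval_of_wires (a : Node M) (ha : ∀ j, a.wires j = 0) (x : Fin M → Bool)
    (v v' : ℕ → Bool) : a.eval x v = a.eval x v' := by
  cases a with
  | var i => rfl
  | const b => rfl
  | gate i => exact absurd (ha i) (by simp [Node.wires])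

lemma Node.subst_eval (s : Fin n → Node M) (hs : ∀ i j, (s i).wires j = 0) (a : Node n)
    (x : Fin M → Bool) (v : ℕ → Bool) (v0 : ℕ → Bool) :
    (a.subst s).eval x v = a.eval (fun i => (s i).eval x v0) v := by
  cases a with
  | var i => exact Node.eval_of_wires _ (hs i) x v v0
  | const b => rfl
  | gate i => rfl

lemma Gate.subst_eval (s : Fin n → Node M) (hs : ∀ i j, (s i).wires j = 0) (g : Gate n)
    (x : Fin M → Bool) (v : ℕ → Bool) (v0 : ℕ → Bool) :
    (g.subst s).eval x v = g.eval (fun i => (s i).eval x v0) v := by
  cases g <;> simp [Gate.subst, Gate.eval, Node.subst_eval s hs _ x v v0]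

lemma Circuit.subst_val (C : Circuit n) (s : Fin n → Node M) (hs : ∀ i j, (s i).wires j = 0)
    (x : Fin M → Bool) (v0 : ℕ → Bool) (i : ℕ) :
    (C.subst s hs).val x i = C.val (fun i => (s i).eval x v0) i := by
  induction i using Nat.strong_induction_on with
  | _ i ih =>
    rw [Circuit.val, Circuit.val]
    show ((C.gate i).subst s).eval x _ = _
    rw [Gate.subst_eval s hs _ x _ v0]
    congr 1
    funext j
    by_cases h : j < i
    · rw [dif_pos h, dif_pos h, ih j h]
    · rw [dif_neg h, dif_neg h]

lemma Circuit.subst_eval (C : Circuit n) (s : Fin n → Node M) (hs : ∀ i j, (s i).wires j = 0)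
    (x : Fin M → Bool) (v0 : ℕ → Bool) :
    (C.subst s hs).eval x = C.eval (fun i => (s i).eval x v0) := by
  unfold Circuit.eval
  show (C.out.subst s).eval x _ = _
  rw [Node.subst_eval s hs _ x _ v0]
  congr 1
  funext j
  exact C.subst_val s hs x v0 j

lemma Circuit.subst_layered (C : Circuit n) (s : Fin n → Node M)
    (hs : ∀ i j, (s i).wires j = 0) {w : ℕ} (h : C.Layered w) : (C.subst s hs).Layered w := by
  obtain ⟨d, lay, h1, h2, ⟨o, h3, h4, h5⟩, h6⟩ := h
  refine ⟨d, lay, h1, fun i hi j hj => h2 i hi j ?_, ⟨o, h3, ?_, h5⟩, h6⟩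
  · rwa [show ((C.subst s hs).gate i) = (C.gate i).subst s from rfl,
      Gate.subst_wires s hs] at hj
  · show C.out.subst s = _
    rw [h4]; rfl

lemma Circuit.subst_nots (C : Circuit n) (s : Fin n → Node M)
    (hs : ∀ i j, (s i).wires j = 0) : (C.subst s hs).nots = C.nots := by
  unfold Circuit.nots
  congr 1
  refine Finset.filter_congr (fun i _ => ?_)
  show ((C.gate i).subst s).isNot = true ↔ _
  cases h : C.gate i <;> simp [Gate.subst, Gate.isNot]

end Pool.Agent.H540R2

namespace Pool.Agent.H540R2.Lin

open List Lift

/-- map on tokens -/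
def GT.map {α β : Type} (f : α → β) : GT α → GT β
  | .P => .P
  | .B => .B
  | .H => .H
  | .D => .D
  | .V a => .V (f a)

lemma bits_map {α β : Type} (f : α → β) (c : Bool → α) (t : GT α) :
    (t.bits c).map f = (t.map f).bits (f ∘ c) := by
  cases t <;> rfl

lemma gbits_map {α β : Type} (f : α → β) (c : Bool → α) (l : List (GT α)) :
    (gbits c l).map f = gbits (f ∘ c) (l.map (GT.map f)) := by
  induction l with
  | nil => rfl
  | cons t l ih =>
    simp only [gbits, flatMap_cons, map_append, map_cons] at ih ⊢
    rw [bits_map, ih]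

lemma gbits_length {α : Type} (c : Bool → α) (l : List (GT α)) :
    (gbits c l).length = 3 * l.length := by
  induction l with
  | nil => rfl
  | cons t l ih =>
    have h : (t.bits c).length = 3 := by cases t <;> rfl
    simp only [gbits, flatMap_cons, length_append, length_cons] at ih ⊢
    rw [h, ih]
    ring

lemma entry_map {α β : Type} (f : α → β) (z : α) (a a' : ℕ) :
    (entry z a a').map (GT.map f) = entry (f z) a a' := by
  simp [entry, GT.map]

lemma body_map {α β : Type} (f : α → β) (m : ℕ) (y : Fin m → Fin m → α) :
    (body (ent m y)).map (GT.map f) = body (ent m (fun a b => f (y a b))) := by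
  have h : ∀ E : List (α × ℕ × ℕ), (body E).map (GT.map f) =
      body (E.map (fun e => (f e.1, e.2.1, e.2.2))) := by
    intro E
    induction E with
    | nil => rfl
    | cons e E ih =>
      rw [body_cons, map_append, ih, entry_map, map_cons, body_cons]
  rw [h]
  congr 1
  simp only [ent, map_flatMap, map_map]
  rfl

lemma strm_map {α β : Type} (f : α → β) (m k : ℕ) (y : ℕ → Fin m → Fin m → α) :
    (strm m k y).map (GT.map f) = strm m k (fun l a b => f (y l a b)) := by
  induction k generalizing y with
  | zero => rfl
  | succ k ih =>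
    simp only [strm, map_append, map_cons]
    rw [body_map, ih]
    rfl

lemma lstr_map {α β : Type} (f : α → β) (m k : ℕ) (ys : List (ℕ → Fin m → Fin m → α)) :
    (lstr m k ys).map (GT.map f) = lstr m k (ys.map (fun y l a b => f (y l a b))) := by
  induction ys with
  | nil => rfl
  | cons y ys ih =>
    simp only [lstr, flatMap_cons, map_append, map_cons] at ih ⊢
    rw [strm_map, ih]

lemma rstr_map {α β : Type} (f : α → β) (m k : ℕ) (ys : List (ℕ → Fin m → Fin m → α)) :
    (rstr m k ys).map (GT.map f) = rstr m k (ys.map (fun y l a b => f (y l a b))) := by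
  induction ys with
  | nil => rfl
  | cons y ys ih =>
    simp only [rstr, flatMap_cons, map_append, map_cons] at ih ⊢
    rw [strm_map, ih]

lemma body_length {α : Type} (m : ℕ) (E : List (α × ℕ × ℕ))
    (hE : ∀ e ∈ E, e.2.1 < m ∧ e.2.2 < m) : (body E).length ≤ E.length * (2 * m + 1) := by
  induction E with
  | nil => simp [body]
  | cons e E ih =>
    have h1 := ih (fun e he => hE e (by simp [he]))
    have h2 := hE e (by simp)
    rw [body_cons, length_append, length_cons]
    have h3 : (entry e.1 e.2.1 e.2.2).length = e.2.1 + e.2.2 + 3 := by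
      simp [entry]; ring
    rw [h3]
    have e4 : (E.length + 1) * (2 * m + 1) = E.length * (2 * m + 1) + (2 * m + 1) := by ring
    omega

lemma ent_length {α : Type} (m : ℕ) (y : Fin m → Fin m → α) : (ent m y).length = m * m := by
  simp [ent]

lemma strm_length {α : Type} (m k : ℕ) (y : ℕ → Fin m → Fin m → α) :
    (strm m k y).length ≤ k * (m * m * (2 * m + 1) + 1) + 1 := by
  induction k generalizing y with
  | zero => simp [strm]
  | succ k ih =>
    have h1 := ih (fun l => y (l + 2))
    have h2 := body_length m (ent m (y 0)) (fun e he => by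
      simp only [ent, mem_flatMap, mem_finRange, mem_map, true_and] at he
      obtain ⟨a, b, rfl⟩ := he
      exact ⟨a.2, b.2⟩)
    rw [ent_length] at h2
    simp only [strm, length_append, length_cons]
    have e : (k + 1) * (m * m * (2 * m + 1) + 1) = k * (m * m * (2 * m + 1) + 1) +
        (m * m * (2 * m + 1) + 1) := by ring
    omega

lemma lstr_length {α : Type} (m k : ℕ) (ys : List (ℕ → Fin m → Fin m → α)) :
    (lstr m k ys).length ≤ ys.length * (k * (m * m * (2 * m + 1) + 1) + 1) := by
  induction ys with
  | nil => simp [lstr]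
  | cons y ys ih =>
    have h := strm_length m k y
    simp only [lstr, flatMap_cons, length_append, length_cons] at ih ⊢
    have e : (ys.length + 1) * (k * (m * m * (2 * m + 1) + 1) + 1) =
      ys.length * (k * (m * m * (2 * m + 1) + 1) + 1) +
        (k * (m * m * (2 * m + 1) + 1) + 1) := by ring
    omega

lemma rstr_length {α : Type} (m k : ℕ) (ys : List (ℕ → Fin m → Fin m → α)) :
    (rstr m k ys).length ≤ ys.length * (k * (m * m * (2 * m + 1) + 1) + 1) := by
  induction ys with
  | nil => simp [rstr]
  | cons y ys ih =>
    have h := strm_length m k (fun l => y (l + 1))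
    simp only [rstr, flatMap_cons, length_append, length_cons] at ih ⊢
    have e : (ys.length + 1) * (k * (m * m * (2 * m + 1) + 1) + 1) =
      ys.length * (k * (m * m * (2 * m + 1) + 1) + 1) +
        (k * (m * m * (2 * m + 1) + 1) + 1) := by ring
    omega

/-- the word -/
def wnodes {α : Type} (c : Bool → α) (m k n : ℕ) (ys : List (ℕ → Fin m → Fin m → α)) : List α :=
  gbits c (lstr m k ys) ++ (replicate (n - 3 * (lstr m k ys).length - 3 * (rstr m k ys).length)
    (c true) ++ (gbits c (rstr m k ys)).reverse)

lemma wnodes_length {α : Type} (c : Bool → α) (m k n : ℕ)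
    (ys : List (ℕ → Fin m → Fin m → α))
    (h : 6 * (ys.length * (k * (m * m * (2 * m + 1) + 1) + 1)) ≤ n) :
    (wnodes c m k n ys).length = n := by
  have h1 := lstr_length m k ys
  have h2 := rstr_length m k ys
  simp only [wnodes, length_append, gbits_length, length_replicate, length_reverse]
  omega

lemma wnodes_map {α β : Type} (f : α → β) (c : Bool → α) (m k n : ℕ)
    (ys : List (ℕ → Fin m → Fin m → α)) :
    (wnodes c m k n ys).map f = wnodes (f ∘ c) m k n (ys.map (fun y l a b => f (y l a b))) := by
  have h1 : (lstr m k ys).length = (lstr m k (ys.map (fun y l a b => f (y l a b)))).length := by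
    rw [← lstr_map, length_map]
  have h2 : (rstr m k ys).length = (rstr m k (ys.map (fun y l a b => f (y l a b)))).length := by
    rw [← rstr_map, length_map]
  simp only [wnodes, map_append, map_reverse, map_replicate]
  rw [gbits_map, gbits_map, lstr_map, rstr_map, h1, h2]
  rfl

lemma wnodes_mem {m : ℕ} [NeZero m] (k n : ℕ) (ys : List (ℕ → Fin m → Fin m → Bool))
    (h : 6 * (ys.length * ((k + 1) * (m * m * (2 * m + 1) + 1) + 1)) + 3 ≤ n) :
    wnodes id m (k + 1) n ys ∈ Gr.language ↔ ∃ y ∈ ys, pth (2 * (k + 1)) y (0 : Fin m) := by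
  have h1 := lstr_length m (k + 1) ys
  have h2 := rstr_length m (k + 1) ys
  rw [← S_copies]
  have h3 := acc_iff (lstr m (k + 1) ys) (rstr m (k + 1) ys)
    (n - 3 * (lstr m (k + 1) ys).length - 3 * (rstr m (k + 1) ys).length) (by omega)
  rw [← h3, append_assoc]
  rfl

/-- paths and layered reachability -/
lemma pth_aux {n m : ℕ} [NeZero m] (x : RVar n m → Bool) (k : ℕ) : ∀ l, l + k = n + 1 →
    ((∃ a, rlay x l a = true ∧ pth k (fun i a b =>
      if h : i + l < n + 1 then x (⟨i + l, h⟩, a, b) else false) a) ↔ RF x = true) := by
  induction k with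
  | zero =>
    intro l hl
    have hl' : l = n + 1 := by omega
    subst hl'
    constructor
    · rintro ⟨a, h1, h2⟩
      have : a = 0 := Fin.ext h2
      subst this
      exact h1
    · intro h
      exact ⟨0, h, rfl⟩
  | succ k ih =>
    intro l hl
    rw [← ih (l + 1) (by omega)]
    have hl' : l < n + 1 := by omega
    constructor
    · rintro ⟨a, h1, b, h2, h3⟩
      refine ⟨b, ?_, ?_⟩
      · simp only [rlay, dif_pos hl', decide_eq_true_eq]
        refine ⟨a, h1, ?_⟩
        have h2' : (if h : 0 + l < n + 1 then x (⟨0 + l, h⟩, a, b) else false) = true := h2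
        rw [dif_pos (by omega)] at h2'
        simpa using h2'
      · have e : (fun (i : ℕ) (a b : Fin m) => if h : i + (l + 1) < n + 1 then
            x (⟨i + (l + 1), h⟩, a, b) else false) = (fun (i : ℕ) (a b : Fin m) =>
            if h : i + 1 + l < n + 1 then x (⟨i + 1 + l, h⟩, a, b) else false) := by
          funext i a b
          have : i + (l + 1) = i + 1 + l := by ring
          simp only [this]
        rw [e]
        exact h3
    · rintro ⟨b, h1, h3⟩
      simp only [rlay, dif_pos hl', decide_eq_true_eq] at h1
      obtain ⟨a, h1, h2⟩ := h1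
      refine ⟨a, h1, b, ?_, ?_⟩
      · show (if h : 0 + l < n + 1 then x (⟨0 + l, h⟩, a, b) else false) = true
        rw [dif_pos (by omega)]
        simpa using h2
      · have e : (fun (i : ℕ) (a b : Fin m) => if h : i + (l + 1) < n + 1 then
            x (⟨i + (l + 1), h⟩, a, b) else false) = (fun (i : ℕ) (a b : Fin m) =>
            if h : i + 1 + l < n + 1 then x (⟨i + 1 + l, h⟩, a, b) else false) := by
          funext i a b
          have : i + (l + 1) = i + 1 + l := by ring
          simp only [this]
        rw [e] at h3
        exact h3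

lemma pth_RF {n m : ℕ} [NeZero m] (x : RVar n m → Bool) :
    pth (n + 1) (fun i a b => if h : i < n + 1 then x (⟨i, h⟩, a, b) else false) (0 : Fin m) ↔
      RF x = true := by
  rw [← pth_aux x (n + 1) 0 (by omega)]
  constructor
  · intro h
    exact ⟨0, by simp [rlay], h⟩
  · rintro ⟨a, h1, h2⟩
    simp only [rlay, decide_eq_true_eq] at h1
    subst h1
    exact h2

end Pool.Agent.H540R2.Lin
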