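import Mathlib
import Pool.Agent.H540R2.Lin.Word
import Pool.Agent.H540R2.Lift.RFinal

/-!
# Size, width and NOT gates of circuits for a linear context-free language
-/

set_option autoImplicit false
set_option linter.unusedSectionVars false

namespace Pool.Agent.H540R2.Lin

open Classical Lift

/-- length of the code at scale `p` -/
lemma len_arith (t p ℓ n : ℕ) (h : t + 7 * (p + 1) + 5 ≤ ℓ) (hn : 2 ^ ℓ ≤ n) :
    6 * (2 ^ t * (2 ^ p * (rb p ^ 2 * rb p ^ 2 * (2 * rb p ^ 2 + 1) + 1) + 1)) + 3 ≤ n := by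
  refine le_trans ?_ hn
  refine le_trans ?_ (Nat.pow_le_pow_right (by norm_num) h)
  obtain ⟨m, hm⟩ : ∃ m, m = rb p ^ 2 := ⟨_, rfl⟩
  obtain ⟨c, hc⟩ : ∃ c, c = 2 ^ t := ⟨_, rfl⟩
  obtain ⟨k, hk⟩ : ∃ k, k = 2 ^ p := ⟨_, rfl⟩
  have hm1 : 1 ≤ m := by rw [hm]; have := rb_ge p; exact Nat.one_le_pow _ _ (by omega)
  have hc1 : 1 ≤ c := by rw [hc]; exact Nat.one_le_two_pow
  have hk1 : 1 ≤ k := by rw [hk]; exact Nat.one_le_two_pow
  have e1 : 2 ^ (t + 7 * (p + 1) + 5) = 64 * (c * (k * (m * m * m))) := by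
    rw [hm, hc, hk]
    unfold rb
    rw [← pow_mul, ← pow_add, ← pow_add]
    rw [show (64 : ℕ) = 2 ^ 6 by norm_num, ← pow_add, ← pow_add, ← pow_add]
    congr 1
    ring
  rw [e1, ← hm, ← hc, ← hk]
  have h1 : m * m * (2 * m + 1) + 1 ≤ 4 * (m * m * m) := by
    have a1 : m * m ≤ m * m * m := Nat.le_mul_of_pos_right _ hm1
    have a2 : 1 ≤ m * m * m := Nat.mul_pos (Nat.mul_pos hm1 hm1) hm1
    have a3 : m * m * (2 * m + 1) = 2 * (m * m * m) + m * m := by ring
    omega
  have h2 : k * (m * m * (2 * m + 1) + 1) + 1 ≤ 5 * (k * (m * m * m)) := by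
    have a1 := Nat.mul_le_mul_left k h1
    have a2 : 1 ≤ k * (m * m * m) :=
      Nat.mul_pos hk1 (Nat.mul_pos (Nat.mul_pos hm1 hm1) hm1)
    have a3 : k * (4 * (m * m * m)) = 4 * (k * (m * m * m)) := by ring
    omega
  have h3 : c * (k * (m * m * (2 * m + 1) + 1) + 1) ≤ 5 * (c * (k * (m * m * m))) := by
    have a1 := Nat.mul_le_mul_left c h2
    have a3 : c * (5 * (k * (m * m * m))) = 5 * (c * (k * (m * m * m))) := by ring
    omega
  have a2 : 1 ≤ c * (k * (m * m * m)) :=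
    Nat.mul_pos hc1 (Nat.mul_pos hk1 (Nat.mul_pos (Nat.mul_pos hm1 hm1) hm1))
  omega

/-- the lower bound at one scale -/
lemma low1 {n : ℕ} (C : Circuit n)
    (hC : ∀ x : Fin n → Bool, C.eval x = true ↔ List.ofFn x ∈ Gr.language)
    {w q v Q rm : ℕ} (hw : C.Layered w) (hs : C.size ≤ 2 ^ q) (hwv : w + 1 ≤ 2 ^ v)
    {p : ℕ} (hp : C.nots + 7 * (p + 1) + 5 ≤ Nat.log 2 n) (hn : n ≠ 0) (hQ4 : 4 ≤ Q)
    (hQ : p ≤ Q) (hrm : 2 + Q + q * (w + 1 + Q) ≤ rm)
    (hb : 2048 * rm * Q ^ 3 * 4 ≤ rb p) :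
    (p + 1) * (p + 1) ≤ (q + 1) + 1 + q * (v + 1) + (p + 1) * 4 := by
  -- the copies
  obtain ⟨c, hc⟩ : ∃ c, c = 2 ^ C.nots := ⟨_, rfl⟩
  obtain ⟨m, hm, hNZ⟩ : ∃ m, m = rb p ^ 2 ∧ NeZero m :=
    ⟨rb p ^ 2, rfl, ⟨by have := rb_ge p; positivity⟩⟩
  subst hm
  obtain ⟨M, hM⟩ : ∃ M, M = Fintype.card (Fin c × RVar (rn p) (rb p ^ 2)) := ⟨_, rfl⟩
  obtain ⟨eq⟩ : Nonempty ((Fin c × RVar (rn p) (rb p ^ 2)) ≃ Fin M) := by
    rw [hM]; exact ⟨Fintype.equivFin _⟩
  obtain ⟨k, hk⟩ : ∃ k, k + 1 = 2 ^ p := ⟨2 ^ p - 1, by have := Nat.one_le_two_pow (n := p); omega⟩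
  have h2k : 2 * (k + 1) = rn p + 1 := by
    rw [hk, rn_eq]; unfold rb; ring
  -- the node-valued word
  let yN : Fin c → ℕ → Fin (rb p ^ 2) → Fin (rb p ^ 2) → Node M := fun j l a b =>
    if h : l < rn p + 1 then Node.var (eq (j, (⟨l, h⟩, a, b))) else Node.const false
  let ys : List (ℕ → Fin (rb p ^ 2) → Fin (rb p ^ 2) → Node M) := (List.finRange c).map yN
  have hyslen : ys.length = 2 ^ C.nots := by simp [ys, hc]
  have hlen := len_arith C.nots p _ n hp (Nat.pow_log_le_self 2 hn)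
  rw [← hk] at hlen
  have hW : (wnodes Node.const (rb p ^ 2) (k + 1) n ys).length = n :=
    wnodes_length _ _ _ _ _ (by rw [hyslen]; omega)
  obtain ⟨W, hWdef⟩ : ∃ W, W = wnodes Node.const (rb p ^ 2) (k + 1) n ys := ⟨_, rfl⟩
  rw [← hWdef] at hW
  have hev0 : ∀ (x : Fin M → Bool) (v0 : ℕ → Bool), W.map (Node.eval x v0) =
      wnodes id (rb p ^ 2) (k + 1) n
        (ys.map (fun y l a b => Node.eval x v0 (y l a b))) := by
    intro x v0
    rw [hWdef, wnodes_map]
    rfl
  -- no gates in the word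
  have hnode : ∀ a ∈ W, ∀ j, a.wires j = 0 := by
    have hbits : ∀ (L : List (GT (Node M))), (∀ t ∈ L, ∀ z, t = GT.V z → ∀ j, z.wires j = 0) →
        ∀ a ∈ gbits Node.const L, ∀ j, a.wires j = 0 := by
      intro L hL a ha j
      obtain ⟨t, ht, hat⟩ := List.mem_flatMap.1 ha
      cases t with
      | P => simp only [GT.bits, List.mem_cons, List.not_mem_nil, or_false, or_self] at hat; subst hat; rfl
      | B =>
        simp only [GT.bits, List.mem_cons, List.not_mem_nil, or_false] at hat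
        rcases hat with rfl | rfl | rfl <;> rfl
      | H =>
        simp only [GT.bits, List.mem_cons, List.not_mem_nil, or_false] at hat
        rcases hat with rfl | rfl | rfl <;> rfl
      | D =>
        simp only [GT.bits, List.mem_cons, List.not_mem_nil, or_false] at hat
        rcases hat with rfl | rfl | rfl <;> rfl
      | V z =>
        simp only [GT.bits, List.mem_cons, List.not_mem_nil, or_false] at hat
        rcases hat with rfl | rfl | rfl
        · rfl
        · rfl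
        · exact hL _ ht _ rfl j
    have hbody : ∀ (y : Fin (rb p ^ 2) → Fin (rb p ^ 2) → Node M),
        (∀ a b j, (y a b).wires j = 0) → ∀ t ∈ body (ent (rb p ^ 2) y), ∀ z, t = GT.V z →
        ∀ j, z.wires j = 0 := by
      intro y hy t ht z hz j
      obtain ⟨e, he, hte⟩ := List.mem_flatMap.1 ht
      simp only [ent, List.mem_flatMap, List.mem_finRange, List.mem_map, true_and] at he
      obtain ⟨a, b, rfl⟩ := he
      subst hz
      simp only [entry, List.mem_cons, List.mem_append, List.mem_replicate, List.not_mem_nil,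
        or_false, GT.V.injEq, reduceCtorEq, and_false, false_or] at hte
      rw [hte]
      exact hy a b j
    have hstrm : ∀ (k : ℕ) (y : ℕ → Fin (rb p ^ 2) → Fin (rb p ^ 2) → Node M),
        (∀ l a b j, (y l a b).wires j = 0) → ∀ t ∈ strm (rb p ^ 2) k y, ∀ z, t = GT.V z →
        ∀ j, z.wires j = 0 := by
      intro k
      induction k with
      | zero =>
        intro y hy t ht z hz
        simp only [strm, List.mem_singleton] at ht
        rw [ht] at hz
        exact absurd hz (by simp)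
      | succ k ih =>
        intro y hy t ht z hz j
        simp only [strm, List.mem_append, List.mem_cons] at ht
        rcases ht with ht | ht | ht
        · exact hbody (y 0) (hy 0) t ht z hz j
        · rw [ht] at hz
          exact absurd hz (by simp)
        · exact ih _ (fun l => hy (l + 2)) t ht z hz j
    have hyN : ∀ y ∈ ys, ∀ l a b j, (y l a b).wires j = 0 := by
      intro y hy l a b j
      obtain ⟨i, -, rfl⟩ := List.mem_map.1 hy
      simp only [yN]
      split_ifs <;> rfl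
    intro a ha j
    rw [hWdef] at ha
    simp only [wnodes, List.mem_append, List.mem_replicate, List.mem_reverse] at ha
    rcases ha with ha | ⟨-, rfl⟩ | ha
    · refine hbits _ (fun t ht z hz => ?_) a ha j
      obtain ⟨y, hy, hty⟩ := List.mem_flatMap.1 ht
      exact hstrm _ y (hyN y hy) t hty z hz
    · rfl
    · refine hbits _ (fun t ht z hz => ?_) a ha j
      obtain ⟨y, hy, hty⟩ := List.mem_flatMap.1 ht
      exact hstrm _ _ (fun l => hyN y hy (l + 1)) t hty z hz
  -- the substituted circuit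
  have hs0 : ∀ (i : Fin n) j, (W.get (i.cast hW.symm)).wires j = 0 :=
    fun i j => hnode _ (List.get_mem _ _) j
  obtain ⟨C1, hC1⟩ : ∃ C1, C1 = C.subst (fun i => W.get (i.cast hW.symm)) hs0 := ⟨_, rfl⟩
  have hC1size : C1.size = C.size := by rw [hC1]; rfl
  have hC1nots : C1.nots = C.nots := by rw [hC1]; exact C.subst_nots _ hs0
  have hC1lay : C1.Layered w := by rw [hC1]; exact C.subst_layered _ hs0 hw
  have hC1eval : ∀ x : Fin M → Bool, C1.eval x = true ↔
      ∃ j : Fin c, RF (fun v => x (eq (j, v))) = true := by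
    intro x
    rw [hC1, C.subst_eval _ hs0 x (fun _ => false), hC]
    have e1 : List.ofFn (fun i : Fin n => (W.get (i.cast hW.symm)).eval x (fun _ => false)) =
        W.map (Node.eval x (fun _ => false)) := by
      apply List.ext_get
      · simp [hW]
      · intro i h1 h2
        simp
    rw [e1, hev0, wnodes_mem k n _ (by
      rw [List.length_map, hyslen]
      exact hlen)]
    rw [h2k]
    constructor
    · rintro ⟨y, hy, hp⟩
      obtain ⟨y1, hy1, rfl⟩ := List.mem_map.1 hy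
      obtain ⟨j, -, rfl⟩ := List.mem_map.1 hy1
      refine ⟨j, (pth_RF _).1 ?_⟩
      convert hp using 1
      funext l a b
      simp only [yN]
      split_ifs <;> rfl
    · rintro ⟨j, hj⟩
      refine ⟨_, List.mem_map.2 ⟨yN j, List.mem_map.2 ⟨j, List.mem_finRange j, rfl⟩, rfl⟩, ?_⟩
      have := (pth_RF _).2 hj
      convert this using 1
      funext l a b
      simp only [yN]
      split_ifs <;> rfl
  -- freezing
  obtain ⟨d, lay, g1, g2, g3, g4⟩ := hC1lay
  have he : ∀ j j' v v', eq (j, v) = eq (j', v') → j = j' ∧ v = v' := by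
    intro j j' v v' h
    have := eq.injective h
    simp only [Prod.mk.injEq] at this
    exact this
  obtain ⟨j, C', ν, a1, a2, a3, a4, a5⟩ := freeze_core C1 (m := c)
    (fun (j : Fin c) (v : RVar (rn p) (rb p ^ 2)) => eq (j, v)) he RF RF_false
    (fun x _ => by rw [Bool.eq_iff_iff, decide_eq_true_iff, hC1eval x])
    (by rw [hC1nots, hc])
  have h := rlower (M := M) (n := rn p) (b := rb p) (Q := Q) (w := w) (v := v)
    (v' := q + 1) (R := q) (rm := rm) (m' := C1.size + 1) (β := p + 1) (L0 := p + 1)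
    (by rw [rn_eq]; exact le_rfl)
    (fun v => eq (j, v))
    (fun v v' h => (he j j v v' h).2)
    C' a1 (lay := lay) (by rw [a2]; exact fun l hl => (g1 l hl).1)
    (by
      rw [a2]
      intro l hl j' hj'
      exact g2 l hl j' (a3 l hl j' hj'))
    (by rw [a2]; exact g4) hwv ν a4 a5
    (by
      have h1 : 2 ^ (q + 1) = 2 * 2 ^ q := by rw [pow_succ]; ring
      have h2 : 1 ≤ 2 ^ q := Nat.one_le_two_pow
      omega) (by rw [a2, hC1size]; exact hs) hQ4 (by omega) hrm hb
    (by exact le_rfl)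
  exact h

/-- **Size, width and NOT gates of circuits for a linear language.** -/
theorem lin_tradeoff : ∃ c : ℕ, ∀ n : ℕ, ∀ (C : Circuit n) (w q : ℕ),
      (∀ x : Fin n → Bool, C.eval x = true ↔ List.ofFn x ∈ Gr.language) →
      C.Layered w → 1 ≤ q → Nat.log 2 n ≤ q → C.size ≤ 2 ^ q →
      (Nat.log 2 n - C.nots) ^ 2 ≤ c * (q * (Nat.log 2 w + 1)) := by
  obtain ⟨c1, hc1, hscale⟩ := scale_arith
  refine ⟨98 * c1 + 242, fun n C w q hC hw hq1 hq hs => ?_⟩
  have hw1 := layered_pos hw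
  obtain ⟨ℓ, hℓ⟩ : ∃ ℓ, ℓ = Nat.log 2 n := ⟨_, rfl⟩
  obtain ⟨K, hK⟩ : ∃ K, K = ℓ - C.nots := ⟨_, rfl⟩
  obtain ⟨y, hy⟩ : ∃ y, y = Nat.log 2 w + 1 := ⟨_, rfl⟩
  have hqy : q ≤ q * y := Nat.le_mul_of_pos_right q (by omega)
  rw [← hℓ, ← hK, ← hy]
  obtain ⟨P, hP⟩ : ∃ P, P = (K - 5) / 7 := ⟨_, rfl⟩
  have hKP : K ≤ 7 * P + 11 := by omega
  have hPP : P * P ≤ c1 * (q * y) := by
    rcases Nat.eq_zero_or_pos P with hP0 | hP0
    · rw [hP0]; omega
    · rw [hy]
      have hn : n ≠ 0 := by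
        rintro rfl
        rw [Nat.log_zero_right] at hℓ
        omega
      refine hscale P q w hP0 (by rw [← hℓ] at hq; omega) hw1 (fun hbig => ?_)
      obtain ⟨p, rfl⟩ : ∃ p, P = p + 1 := ⟨P - 1, by omega⟩
      exact low1 (Q := p + 1 + 4) (v := Nat.log 2 w + 1) C hC hw hs
        (Nat.lt_pow_succ_log_self (by norm_num) w) (p := p) (by rw [← hℓ]; omega) hn
        (by omega) (by omega) le_rfl hbig
  calc K ^ 2 ≤ (7 * P + 11) ^ 2 := Nat.pow_le_pow_left hKP 2
    _ ≤ 98 * (P * P) + 242 := by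
        have h := two_mul_le_add_sq (7 * P) 11
        have e1 : (7 * P + 11) ^ 2 = (7 * P) ^ 2 + 2 * (7 * P) * 11 + 11 ^ 2 := by ring
        have e2 : (7 * P) ^ 2 = 49 * (P * P) := by ring
        omega
    _ ≤ 98 * (c1 * (q * y)) + 242 * (q * y) := by
        have h3 : 1 ≤ q * y := Nat.mul_pos hq1 (by omega)
        have h4 := Nat.mul_le_mul_left 98 hPP
        omega
    _ = (98 * c1 + 242) * (q * y) := by ring

end Pool.Agent.H540R2.Lin
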